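import Mathlib

/-!
# MP_dd6e79_al : oscillating growth of finitely presented semigroups

There are only countably many finitely presented semigroups with a chosen finite generating set.
Every growth function is (up to adding one) submultiplicative, hence it is either exponential or
subexponential.  One diagonal function `f₂` of subexponential growth eventually dominates all the
subexponential growth functions of finitely presented semigroups.
-/

namespace Pool.Agent.Results.MP_dd6e79_al.FPGrowthGap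

open Filter

/-- Elements that are products of at least one and at most `n` elements of `X`. -/
def ball {S : Type} [Semigroup S] (X : Set S) (n : ℕ) : Set S :=
  {s | ∃ x ∈ X, ∃ l : List S, (∀ y ∈ l, y ∈ X) ∧ l.length + 1 ≤ n ∧ l.foldl (· * ·) x = s}

/-- The growth function of the semigroup `S` with respect to `X`. -/
noncomputable def growth {S : Type} [Semigroup S] (X : Set S) (n : ℕ) : ℕ := (ball X n).ncard

/-- `f ⪯ g`. -/
def Dom (f g : ℕ → ℕ) : Prop := ∃ C : ℕ, 1 ≤ C ∧ ∀ n, f n ≤ C * g (C * n)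

/-- `f ∼ g`. -/
def Equi (f g : ℕ → ℕ) : Prop := Dom f g ∧ Dom g f

/-- Finitely presented semigroups: quotients of a free semigroup of finite rank by the congruence
generated by a finite set of pairs of words. -/
def FinPres (S : Type) [Semigroup S] : Prop :=
  ∃ (k : ℕ) (R : Finset (FreeSemigroup (Fin k) × FreeSemigroup (Fin k))),
    Nonempty ((conGen fun u v => (u, v) ∈ R).Quotient ≃* S)

/-- Subexponential functions: `f n ≤ 2 ^ (n / k)` for all large `n`, for every `k`. -/
def Subexp (f : ℕ → ℕ) : Prop := ∀ k : ℕ, ∀ᶠ n in atTop, f n ^ k ≤ 2 ^ n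

/-! ### Growth functions are submultiplicative -/

section ball

variable {S : Type} [Semigroup S]

lemma foldl_mul (l : List S) (a b : S) : l.foldl (· * ·) (a * b) = a * l.foldl (· * ·) b := by
  induction l generalizing b with
  | nil => rfl
  | cons c l ih => simp only [List.foldl_cons, mul_assoc, ih]

lemma ball_zero (X : Set S) : ball X 0 = ∅ := by
  ext s
  simp [ball]

lemma ball_mono (X : Set S) {m n : ℕ} (h : m ≤ n) : ball X m ⊆ ball X n := by
  rintro s ⟨x, hx, l, hl, hln, rfl⟩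
  exact ⟨x, hx, l, hl, hln.trans h, rfl⟩

lemma ball_add (X : Set S) (m n : ℕ) :
    ball X (m + 1 + n) ⊆ ball X (m + 1) ∪ (fun p : S × S => p.1 * p.2) '' (ball X (m + 1) ×ˢ ball X n) := by
  rintro s ⟨x, hx, l, hl, hln, rfl⟩
  by_cases h : l.length ≤ m
  · left
    exact ⟨x, hx, l, hl, by omega, rfl⟩
  · right
    push Not at h
    have hsplit : l = l.take m ++ l.drop m := (List.take_append_drop m l).symm
    have hne : l.drop m ≠ [] := by
      intro h0
      rw [List.drop_eq_nil_iff] at h0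
      omega
    obtain ⟨y, l', hy⟩ := List.exists_cons_of_ne_nil hne
    have hyX : y ∈ X := hl y (List.mem_of_mem_drop (i := m) (by rw [hy]; simp))
    refine ⟨((l.take m).foldl (· * ·) x, l'.foldl (· * ·) y), ⟨?_, ?_⟩, ?_⟩
    · exact ⟨x, hx, _, fun z hz => hl z (List.mem_of_mem_take hz), by simp, rfl⟩
    · refine ⟨y, hyX, l', fun z hz => hl z (List.mem_of_mem_drop (i := m) (by rw [hy]; simp [hz])), ?_, rfl⟩
      have : (l.drop m).length = l'.length + 1 := by rw [hy]; rfl
      rw [List.length_drop] at this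
      omega
    · change (l.take m).foldl (· * ·) x * l'.foldl (· * ·) y = l.foldl (· * ·) x
      conv_rhs => rw [hsplit, List.foldl_append, hy, List.foldl_cons]
      rw [foldl_mul]

lemma ball_finite {X : Set S} (hX : X.Finite) (n : ℕ) : (ball X n).Finite := by
  induction n with
  | zero => rw [ball_zero]; exact Set.finite_empty
  | succ n ih =>
    have h1 : ball X 1 ⊆ X := by
      rintro s ⟨x, hx, l, hl, hln, rfl⟩
      have : l = [] := List.eq_nil_of_length_eq_zero (by omega)
      subst this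
      exact hx
    have h := ball_add X 0 n
    rw [show 0 + 1 + n = n + 1 by ring] at h
    exact (((hX.subset h1).union (((hX.subset h1).prod ih).image _))).subset h

/-- The function `1 + growth`. -/
noncomputable def gr (X : Set S) (n : ℕ) : ℕ := 1 + growth X n

lemma gr_mono {X : Set S} (hX : X.Finite) : Monotone (gr X) := fun _ _ h =>
  Nat.add_le_add_left (Set.ncard_le_ncard (ball_mono X h) (ball_finite hX _)) 1

lemma gr_add {X : Set S} (hX : X.Finite) (m n : ℕ) : gr X (m + n) ≤ gr X m * gr X n := by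
  rcases m with _ | m
  · simp [gr, growth, ball_zero]
  · have h1 : growth X (m + 1 + n) ≤ growth X (m + 1) + growth X (m + 1) * growth X n := by
      refine (Set.ncard_le_ncard (ball_add X m n)
        ((ball_finite hX _).union (((ball_finite hX _).prod (ball_finite hX _)).image _))).trans ?_
      refine (Set.ncard_union_le _ _).trans (Nat.add_le_add_left ?_ _)
      refine (Set.ncard_image_le ((ball_finite hX _).prod (ball_finite hX _))).trans ?_
      rw [Set.ncard_prod]; rfl
    unfold gr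
    nlinarith [h1]

end ball

/-! ### The dichotomy for submultiplicative functions -/

lemma dichotomy {g : ℕ → ℕ} (hm : Monotone g) (hs : ∀ m n, g (m + n) ≤ g m * g n) :
    Subexp g ∨ ∃ k, ∀ m, 1 ≤ m → 2 ^ m < g m ^ k := by
  by_cases h : ∃ k, ∀ m, 1 ≤ m → 2 ^ m < g m ^ k
  · exact Or.inr h
  · left
    push Not at h
    intro k
    obtain ⟨m, hm1, hmk⟩ := h (2 * k)
    refine eventually_atTop.2 ⟨m, fun n hn => ?_⟩
    have hmul : ∀ q, g (m * (q + 1)) ≤ g m ^ (q + 1) := by
      intro q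
      induction q with
      | zero => simp
      | succ q ih =>
        calc g (m * (q + 1 + 1)) = g (m * (q + 1) + m) := by ring_nf
          _ ≤ g (m * (q + 1)) * g m := hs _ _
          _ ≤ g m ^ (q + 1) * g m := Nat.mul_le_mul_right _ ih
          _ = g m ^ (q + 1 + 1) := (pow_succ _ _).symm
    have hq : n ≤ m * (n / m + 1) := by
      have := Nat.lt_mul_div_succ n hm1
      exact this.le
    have hq' : m * (n / m + 1) ≤ n + m := by
      have := Nat.mul_div_le n m
      rw [Nat.mul_add, Nat.mul_one]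
      omega
    have h1 : g n ≤ g m ^ (n / m + 1) := (hm hq).trans (hmul _)
    have h2 : (g n ^ k) ^ 2 ≤ (2 ^ n) ^ 2 := by
      calc (g n ^ k) ^ 2 = g n ^ (2 * k) := by rw [← pow_mul]; ring_nf
        _ ≤ (g m ^ (n / m + 1)) ^ (2 * k) := Nat.pow_le_pow_left h1 _
        _ = (g m ^ (2 * k)) ^ (n / m + 1) := by rw [← pow_mul, ← pow_mul, mul_comm]
        _ ≤ (2 ^ m) ^ (n / m + 1) := Nat.pow_le_pow_left hmk _
        _ = 2 ^ (m * (n / m + 1)) := (pow_mul _ _ _).symm
        _ ≤ 2 ^ (n + m) := Nat.pow_le_pow_right (by norm_num) hq'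
        _ ≤ 2 ^ (n * 2) := Nat.pow_le_pow_right (by norm_num) (by omega)
        _ = (2 ^ n) ^ 2 := pow_mul _ _ _
    exact (Nat.pow_le_pow_iff_left (by norm_num)).1 h2

/-! ### The diagonal function -/

lemma lin_lt_pow (a b : ℕ) : ∃ j : ℕ, a + b * j < 2 ^ j := by
  refine ⟨4 * (a + b), ?_⟩
  have h1 : a + b < 2 ^ (a + b) := Nat.lt_two_pow_self
  obtain ⟨c, hc⟩ : ∃ c, c = a + b := ⟨_, rfl⟩
  rw [← hc] at h1 ⊢
  have hb : b ≤ c := by omega
  have ha : a ≤ c := by omega
  have h2 : 2 ^ (4 * c) = (2 ^ c) ^ 4 := by rw [← pow_mul]; ring_nf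
  rw [h2]
  have h3 : (c + 1) ^ 4 ≤ (2 ^ c) ^ 4 := Nat.pow_le_pow_left h1 4
  have h4 : a + b * (4 * c) ≤ c + c * (4 * c) := by
    have := Nat.mul_le_mul_right (4 * c) hb
    omega
  have h5 : c + c * (4 * c) < (c + 1) ^ 4 := by nlinarith [sq_nonneg c, Nat.zero_le (c^3), Nat.zero_le (c^4)]
  omega

lemma diagonal (F : ℕ → ℕ → ℕ) (hF : ∀ i, Subexp (F i)) :
    ∃ f : ℕ → ℕ, StrictMono f ∧ (∀ i, ∀ᶠ n in atTop, F i n ≤ f n) ∧
      Dom f (fun n => 2 ^ n) ∧ ¬ Dom (fun n => 2 ^ n) f := by
  have hF' : ∀ i k, ∃ N, ∀ n, N ≤ n → F i n ^ k ≤ 2 ^ n := fun i k =>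
    eventually_atTop.1 (hF i k)
  choose N hN using hF'
  let h : ℕ → ℕ := fun m => (Finset.range m).sup fun i => if N i i ≤ m then F i m else 0
  have hh : ∀ k, ∃ M, ∀ m, M ≤ m → h m ^ k ≤ 2 ^ m := by
    intro k
    refine ⟨(Finset.range k).sup fun i => N i k, fun m hm => ?_⟩
    rcases (Finset.range m).eq_empty_or_nonempty with he | hne
    · have : h m = 0 := by simp only [h, he, Finset.sup_empty, Nat.bot_eq_zero]
      rw [this]
      rcases k with _ | k
      · simpa using Nat.one_le_two_pow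
      · simp
    · obtain ⟨i, -, hi⟩ := Finset.exists_mem_eq_sup (Finset.range m) hne
        (fun i => if N i i ≤ m then F i m else 0)
      have hi' : h m = if N i i ≤ m then F i m else 0 := hi
      rw [hi']
      split_ifs with hact
      · rcases lt_or_ge i k with hik | hik
        · exact hN i k m ((Finset.le_sup (f := fun i => N i k) (Finset.mem_range.2 hik)).trans hm)
        · rcases Nat.eq_zero_or_pos (F i m) with h0 | h0
          · rw [h0]
            rcases k with _ | k
            · simpa using Nat.one_le_two_pow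
            · simp
          · exact (Nat.pow_le_pow_right h0 hik).trans (hN i i m hact)
      · rcases k with _ | k
        · simpa using Nat.one_le_two_pow
        · simp
  let f : ℕ → ℕ := fun n => ∑ m ∈ Finset.range (n + 1), (1 + h m)
  have hfh : ∀ n, h n ≤ f n := by
    intro n
    have : f n = ∑ m ∈ Finset.range n, (1 + h m) + (1 + h n) := Finset.sum_range_succ _ _
    omega
  -- the basic upper bound
  have hup : ∀ (M B n : ℕ), (∀ m, M ≤ m → m ≤ n → h m ≤ B) →
      f n ≤ ∑ m ∈ Finset.range M, (1 + h m) + (n + 1) * (1 + B) := by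
    intro M B n hB
    have h1 : f n ≤ ∑ m ∈ Finset.range M ∪ Finset.range (n + 1) \ Finset.range M, (1 + h m) := by
      refine Finset.sum_le_sum_of_subset ?_
      intro x hx
      rw [Finset.mem_union, Finset.mem_sdiff]
      tauto
    have h2 := Finset.sum_union (f := fun m => 1 + h m)
      (Finset.disjoint_sdiff : Disjoint (Finset.range M) (Finset.range (n + 1) \ Finset.range M))
    have h3 : ∑ m ∈ Finset.range (n + 1) \ Finset.range M, (1 + h m) ≤ (n + 1) * (1 + B) := by
      refine (Finset.sum_le_card_nsmul _ _ (1 + B) ?_).trans ?_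
      · intro m hm
        rw [Finset.mem_sdiff, Finset.mem_range, Finset.mem_range] at hm
        exact Nat.add_le_add_left (hB m (by omega) (by omega)) 1
      · rw [smul_eq_mul]
        refine Nat.mul_le_mul_right _ ?_
        exact (Finset.card_le_card Finset.sdiff_subset).trans (by simp)
    omega
  refine ⟨f, ?_, ?_, ?_, ?_⟩
  · refine strictMono_nat_of_lt_succ fun n => ?_
    have : f (n + 1) = f n + (1 + h (n + 1)) := Finset.sum_range_succ _ _
    omega
  · intro i
    refine eventually_atTop.2 ⟨max (i + 1) (N i i), fun n hn => ?_⟩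
    refine le_trans ?_ (hfh n)
    have h1 : i ∈ Finset.range n := Finset.mem_range.2 (by have := le_max_left (i + 1) (N i i); omega)
    have h2 : N i i ≤ n := (le_max_right _ _).trans hn
    have h3 := Finset.le_sup (f := fun i => if N i i ≤ n then F i n else 0) h1
    simp only [h2, if_true] at h3
    exact h3
  · obtain ⟨M, hM⟩ := hh 1
    obtain ⟨A, hA⟩ : ∃ A, A = ∑ m ∈ Finset.range M, (1 + h m) := ⟨_, rfl⟩
    refine ⟨A + 2, by omega, fun n => ?_⟩
    have h1 := hup M (2 ^ n) n (fun m hm hmn => by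
      have := hM m hm
      rw [pow_one] at this
      exact this.trans (Nat.pow_le_pow_right (by norm_num) hmn))
    rw [← hA] at h1
    have h2 : n + 1 ≤ 2 ^ n := Nat.lt_two_pow_self
    have h3 : 1 ≤ 2 ^ n := Nat.one_le_two_pow
    have h4 : 2 ^ n * 2 ^ n ≤ 2 ^ ((A + 2) * n) := by
      rw [← pow_add]
      exact Nat.pow_le_pow_right (by norm_num) (by nlinarith)
    have h5 : (n + 1) * (1 + 2 ^ n) ≤ 2 ^ n * (2 * 2 ^ n) := Nat.mul_le_mul h2 (by omega)
    have h6 : A ≤ A * (2 ^ n * 2 ^ n) := Nat.le_mul_of_pos_right _ (by positivity)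
    calc f n ≤ A + (n + 1) * (1 + 2 ^ n) := h1
      _ ≤ A * (2 ^ n * 2 ^ n) + 2 ^ n * (2 * 2 ^ n) := Nat.add_le_add h6 h5
      _ = (A + 2) * (2 ^ n * 2 ^ n) := by ring
      _ ≤ (A + 2) * 2 ^ ((A + 2) * n) := Nat.mul_le_mul_left _ h4
  · rintro ⟨C, hC1, hC⟩
    obtain ⟨M, hM⟩ := hh (2 * C)
    obtain ⟨A, hA⟩ : ∃ A, A = ∑ m ∈ Finset.range M, (1 + h m) := ⟨_, rfl⟩
    obtain ⟨j, hj⟩ := lin_lt_pow (C * (A + 2)) (C * (4 * C))
    have h1 := hup M (2 ^ j) (C * (2 * j)) (fun m hm hmn => by
      have h2 := hM m hm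
      have h3 : (h m) ^ (2 * C) ≤ (2 ^ j) ^ (2 * C) := by
        refine h2.trans ?_
        rw [← pow_mul]
        exact Nat.pow_le_pow_right (by norm_num) (by nlinarith)
      exact (Nat.pow_le_pow_iff_left (by omega)).1 h3)
    rw [← hA] at h1
    have h2 := hC (2 * j)
    have h3 : 1 ≤ 2 ^ j := Nat.one_le_two_pow
    have h4 : f (C * (2 * j)) ≤ (A + 2 + 4 * C * j) * 2 ^ j := by
      calc f (C * (2 * j)) ≤ A + (C * (2 * j) + 1) * (1 + 2 ^ j) := h1
        _ ≤ A * 2 ^ j + (C * (2 * j) + 1) * (2 * 2 ^ j) := by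
          refine Nat.add_le_add (Nat.le_mul_of_pos_right _ (by positivity))
            (Nat.mul_le_mul_left _ (by omega))
        _ = (A + 2 + 4 * C * j) * 2 ^ j := by ring
    have h5 : 2 ^ (2 * j) ≤ C * ((A + 2 + 4 * C * j) * 2 ^ j) := h2.trans (Nat.mul_le_mul_left _ h4)
    have h6 : 2 ^ (2 * j) = 2 ^ j * 2 ^ j := by rw [← pow_add]; ring_nf
    rw [h6] at h5
    have h7 : C * ((A + 2 + 4 * C * j) * 2 ^ j) = (C * (A + 2) + C * (4 * C) * j) * 2 ^ j := by ring
    rw [h7] at h5
    have h8 := Nat.le_of_mul_le_mul_right h5 (by positivity)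
    omega

/-! ### Countability -/

/-- The code of a finitely presented semigroup with a finite generating set. -/
abbrev Code := Σ k : ℕ, Finset (FreeSemigroup (Fin k) × FreeSemigroup (Fin k)) ×
  Finset (FreeSemigroup (Fin k))

instance (k : ℕ) : Countable (FreeSemigroup (Fin k)) :=
  Function.Injective.countable (f := fun w : FreeSemigroup (Fin k) => (w.head, w.tail))
    (by
      rintro ⟨a, l⟩ ⟨b, m⟩ h
      simp only [Prod.mk.injEq] at h
      rw [h.1, h.2])

/-- The semigroup of a code. -/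
abbrev QS (c : Code) : Type := (conGen fun u v : FreeSemigroup (Fin c.1) => (u, v) ∈ c.2.1).Quotient

/-- The generating set of a code. -/
def gen (c : Code) : Set (QS c) :=
  (Con.toQuotient : FreeSemigroup (Fin c.1) → QS c) '' (c.2.2 : Set (FreeSemigroup (Fin c.1)))

lemma gen_finite (c : Code) : (gen c).Finite := c.2.2.finite_toSet.image _

lemma foldl_equiv {S T : Type} [Semigroup S] [Semigroup T] (e : S ≃* T) (l : List S) (x : S) :
    (l.map e).foldl (· * ·) (e x) = e (l.foldl (· * ·) x) := by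
  induction l generalizing x with
  | nil => rfl
  | cons y l ih => rw [List.map_cons, List.foldl_cons, List.foldl_cons, ← map_mul, ih]

lemma ball_equiv {S T : Type} [Semigroup S] [Semigroup T] (e : S ≃* T) (X : Set S) (n : ℕ) :
    ball (e '' X) n = e '' ball X n := by
  ext t
  constructor
  · rintro ⟨_, ⟨x, hx, rfl⟩, l, hl, hln, rfl⟩
    refine ⟨(l.map e.symm).foldl (· * ·) x, ⟨x, hx, l.map e.symm, ?_, by simpa using hln, rfl⟩, ?_⟩
    · intro y hy
      obtain ⟨z, hz, rfl⟩ := List.mem_map.1 hy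
      obtain ⟨w, hw, rfl⟩ := hl z hz
      simpa using hw
    · rw [← foldl_equiv]
      simp [List.map_map]
  · rintro ⟨_, ⟨x, hx, l, hl, hln, rfl⟩, rfl⟩
    refine ⟨e x, ⟨x, hx, rfl⟩, l.map e, ?_, by simpa using hln, foldl_equiv e l x⟩
    intro y hy
    obtain ⟨z, hz, rfl⟩ := List.mem_map.1 hy
    exact ⟨z, hl z hz, rfl⟩

lemma growth_equiv {S T : Type} [Semigroup S] [Semigroup T] (e : S ≃* T) (X : Set S) :
    growth (e '' X) = growth X := by
  funext n
  unfold growth
  rw [ball_equiv]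
  exact Set.ncard_image_of_injective _ e.injective

lemma exists_code {S : Type} [Semigroup S] (hS : FinPres S) {X : Set S} (hX : X.Finite) :
    ∃ c : Code, growth X = growth (gen c) := by
  classical
  obtain ⟨k, R, ⟨e⟩⟩ := hS
  have hsurj : ∀ s : S, ∃ w : FreeSemigroup (Fin k), e (Con.toQuotient w) = s := by
    intro s
    obtain ⟨w, hw⟩ : ∃ w : FreeSemigroup (Fin k), Con.toQuotient w = e.symm s :=
      Quot.exists_rep (e.symm s)
    exact ⟨w, by rw [hw]; simp⟩
  choose W hW using hsurj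
  refine ⟨⟨k, R, hX.toFinset.image W⟩, ?_⟩
  have : X = e '' (gen ⟨k, R, hX.toFinset.image W⟩) := by
    ext s
    constructor
    · intro hs
      exact ⟨Con.toQuotient (W s), ⟨W s, Finset.mem_coe.2 (Finset.mem_image.2
        ⟨s, hX.mem_toFinset.2 hs, rfl⟩), rfl⟩, hW s⟩
    · rintro ⟨_, ⟨w, hw, rfl⟩, rfl⟩
      obtain ⟨t, ht, rfl⟩ := Finset.mem_image.1 (Finset.mem_coe.1 hw)
      rw [hW]; exact hX.mem_toFinset.1 ht
  conv_lhs => rw [this]
  exact growth_equiv e _

/-- The main dichotomy with a universal function `f₂`. -/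
theorem main : ∃ f₂ : ℕ → ℕ, StrictMono f₂ ∧ Dom f₂ (fun n => 2 ^ n) ∧ ¬ Dom (fun n => 2 ^ n) f₂ ∧
    ∀ (S : Type) [Semigroup S] (X : Set S), FinPres S → X.Finite → Subsemigroup.closure X = ⊤ →
      (∀ᶠ n in atTop, growth X n ≤ f₂ n) ∨ ∃ k, ∀ n, 1 ≤ n → 2 ^ n < (1 + growth X n) ^ k := by
  have : Nonempty Code := ⟨⟨0, ∅, ∅⟩⟩
  have : Countable Code := inferInstance
  obtain ⟨F, hF⟩ := exists_surjective_nat Code
  classical
  obtain ⟨f, h1, h2, h3, h4⟩ := diagonal
    (fun i => if Subexp (gr (gen (F i))) then gr (gen (F i)) else fun _ => 0) (by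
      intro i
      split_ifs with h
      · exact h
      · intro k
        refine Eventually.of_forall fun n => ?_
        rcases k with _ | k
        · simpa using Nat.one_le_two_pow
        · simp)
  refine ⟨f, h1, h3, h4, fun S _ X hS hX _ => ?_⟩
  obtain ⟨c, hc⟩ := exists_code hS hX
  obtain ⟨i, rfl⟩ := hF c
  rw [hc]
  rcases dichotomy (gr_mono (gen_finite (F i))) (gr_add (gen_finite (F i))) with h | h
  · left
    filter_upwards [h2 i] with n hn
    rw [if_pos h] at hn
    exact le_trans (by unfold gr; omega) hn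
  · right
    exact h

lemma subexp_cube : Subexp (fun n => n ^ 3) := by
  intro k
  have h := tendsto_pow_const_div_const_pow_of_one_lt (3 * k) (r := (2 : ℝ)) (by norm_num)
  filter_upwards [h.eventually (gt_mem_nhds (show (0 : ℝ) < 1 by norm_num))] with n hn
  rw [div_lt_one (by positivity)] at hn
  rw [← pow_mul]
  exact_mod_cast hn.le

/-- **MP_dd6e79_al.**  The answer to Q1 is negative.

(1) There are strictly increasing functions `f₁, f₂` with `n ^ 2 ⪯ f₁`, `f₂ ⪯ 2 ^ n`,
`f₁ ≁ n ^ 2`, `f₂ ≁ 2 ^ n` such that every finitely presented semigroup `S` (with any finite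
generating set `X`) satisfies `f_S(n) ≥ f₁(n)` for all large `n`, or `f_S(n) ≤ f₂(n)` for all
large `n`.

(2) More strongly there is a single strictly increasing `f₂ ⪯ 2 ^ n`, `f₂ ≁ 2 ^ n` such that the
growth function of every finitely presented semigroup is either eventually at most `f₂`, or
exponential; in particular this `f₂` works for all subexponential functions `f₁` at once. -/
theorem result :
    (∃ f₁ f₂ : ℕ → ℕ, StrictMono f₁ ∧ StrictMono f₂ ∧ Dom (fun n => n ^ 2) f₁ ∧
      Dom f₂ (fun n => 2 ^ n) ∧ ¬ Equi f₁ (fun n => n ^ 2) ∧ ¬ Equi f₂ (fun n => 2 ^ n) ∧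
      ∀ (S : Type) [Semigroup S] (X : Set S), FinPres S → X.Finite →
        Subsemigroup.closure X = ⊤ →
        (∀ᶠ n in atTop, f₁ n ≤ growth X n) ∨ (∀ᶠ n in atTop, growth X n ≤ f₂ n)) ∧
    (∃ f₂ : ℕ → ℕ, StrictMono f₂ ∧ Dom f₂ (fun n => 2 ^ n) ∧ ¬ Equi f₂ (fun n => 2 ^ n) ∧
      ∀ (S : Type) [Semigroup S] (X : Set S), FinPres S → X.Finite →
        Subsemigroup.closure X = ⊤ →
        ((∀ᶠ n in atTop, growth X n ≤ f₂ n) ∨
          ∃ k, ∀ n, 1 ≤ n → 2 ^ n < (1 + growth X n) ^ k) ∧
        ∀ f₁ : ℕ → ℕ, Subexp f₁ →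
          (∀ᶠ n in atTop, f₁ n ≤ growth X n) ∨ (∀ᶠ n in atTop, growth X n ≤ f₂ n)) := by
  obtain ⟨f₂, h1, h2, h3, h4⟩ := main
  have key : ∀ (S : Type) [Semigroup S] (X : Set S), FinPres S → X.Finite →
      Subsemigroup.closure X = ⊤ → ∀ f₁ : ℕ → ℕ, Subexp f₁ →
        (∀ᶠ n in atTop, f₁ n ≤ growth X n) ∨ (∀ᶠ n in atTop, growth X n ≤ f₂ n) := by
    intro S _ X hS hX hgen f₁ hf₁
    rcases h4 S X hS hX hgen with h | ⟨k, hk⟩
    · exact Or.inr h
    · left
      filter_upwards [hf₁ k, eventually_ge_atTop 1] with n hn hn1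
      have h5 : f₁ n ^ k < (1 + growth X n) ^ k := hn.trans_lt (hk n hn1)
      have := lt_of_pow_lt_pow_left₀ k (Nat.zero_le _) h5
      omega
  have hne : ¬ Equi f₂ (fun n => 2 ^ n) := fun h => h3 h.2
  refine ⟨⟨fun n => n ^ 3, f₂, ?_, h1, ?_, h2, ?_, hne, fun S _ X hS hX hg =>
    key S X hS hX hg _ subexp_cube⟩, ⟨f₂, h1, h2, hne, fun S _ X hS hX hg =>
    ⟨h4 S X hS hX hg, key S X hS hX hg⟩⟩⟩
  · exact fun a b h => Nat.pow_lt_pow_left h (by norm_num)
  · refine ⟨1, le_rfl, fun n => ?_⟩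
    rcases Nat.eq_zero_or_pos n with rfl | h
    · simp
    · simp only [one_mul]
      exact Nat.pow_le_pow_right h (by norm_num)
  · rintro ⟨⟨C, hC, h⟩, -⟩
    have h5 := h (C ^ 3 + 1)
    have h6 : (C ^ 3 + 1) ^ 3 ≤ C ^ 3 * (C ^ 3 + 1) ^ 2 := by
      calc (C ^ 3 + 1) ^ 3 ≤ C * (C * (C ^ 3 + 1)) ^ 2 := h5
        _ = C ^ 3 * (C ^ 3 + 1) ^ 2 := by ring
    have h7 : (C ^ 3 + 1) ^ 3 = C ^ 3 * (C ^ 3 + 1) ^ 2 + (C ^ 3 + 1) ^ 2 := by ring
    have h8 : 0 < (C ^ 3 + 1) ^ 2 := by positivity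
    omega

end Pool.Agent.Results.MP_dd6e79_al.FPGrowthGap
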